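import Pool.Agent.H24.KTH.Geo

/-!
# KTH, row EN
-/

set_option autoImplicit false

namespace Pool.Agent.H37.KTH

open Finset Real
open Pool.Agent.H49.Ent Pool.Agent.H32.Dense

lemma sum_sqrt (N : ℕ) : ∑ k ∈ Finset.range N, 1 / Real.sqrt ((k : ℝ) + 1) ≤ 2 * Real.sqrt N := by
  induction N with
  | zero => simp
  | succ N ih =>
    rw [Finset.sum_range_succ]
    have hN : (0 : ℝ) ≤ N := Nat.cast_nonneg N
    have h1 : Real.sqrt ((N : ℝ) + 1) * Real.sqrt ((N : ℝ) + 1) = N + 1 :=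
      Real.mul_self_sqrt (by linarith)
    have h2 : Real.sqrt (N : ℝ) * Real.sqrt (N : ℝ) = N := Real.mul_self_sqrt hN
    have h3 : 0 < Real.sqrt ((N : ℝ) + 1) := Real.sqrt_pos.mpr (by linarith)
    have h4 : 0 ≤ Real.sqrt (N : ℝ) := Real.sqrt_nonneg _
    have h5 : 1 / Real.sqrt ((N : ℝ) + 1) ≤
        2 * Real.sqrt ((N : ℝ) + 1) - 2 * Real.sqrt (N : ℝ) := by
      rw [div_le_iff₀ h3]
      nlinarith [sq_nonneg (Real.sqrt ((N : ℝ) + 1) - Real.sqrt (N : ℝ))]
    push_cast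
    linarith

lemma half_sum (M : ℕ) (A : Finset ℤ) (m : ℤ) (g : ℕ → ℝ) (hg : ∀ k, 0 ≤ g k)
    (hA : ∀ n ∈ A, (n - m).natAbs < M + 1) (hinj : Set.InjOn (fun n : ℤ => (n - m).natAbs) A) :
    ∑ n ∈ A, g (n - m).natAbs ≤ ∑ k ∈ Finset.range (M + 1), g k := by
  rw [← Finset.sum_image (f := g) (g := fun n : ℤ => (n - m).natAbs) hinj]
  refine Finset.sum_le_sum_of_subset_of_nonneg ?_ fun k _ _ => hg k
  intro k hk
  obtain ⟨n, hn, rfl⟩ := Finset.mem_image.mp hk
  exact Finset.mem_range.mpr (hA n hn)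

lemma two_sum (M : ℕ) (m : ℤ) (h0 : 0 ≤ m) (h1 : m ≤ M) (g : ℕ → ℝ) (hg : ∀ k, 0 ≤ g k) :
    ∑ n ∈ Finset.Ico (0 : ℤ) M, g (n - m).natAbs ≤
      2 * ∑ k ∈ Finset.range (M + 1), g k := by
  rw [← Finset.sum_filter_add_sum_filter_not (Finset.Ico (0 : ℤ) M) (fun n => n < m)]
  have a1 := half_sum M ((Finset.Ico (0 : ℤ) M).filter (fun n => n < m)) m g hg (by
    intro n hn
    simp only [Finset.mem_filter, Finset.mem_Ico] at hn
    omega) (by
    intro a ha b hb hab
    simp only [Finset.coe_filter, Finset.mem_Ico, Set.mem_setOf_eq] at ha hb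
    simp only at hab
    omega)
  have a2 := half_sum M ((Finset.Ico (0 : ℤ) M).filter (fun n => ¬ n < m)) m g hg (by
    intro n hn
    simp only [Finset.mem_filter, Finset.mem_Ico] at hn
    omega) (by
    intro a ha b hb hab
    simp only [Finset.coe_filter, Finset.mem_Ico, Set.mem_setOf_eq] at ha hb
    simp only at hab
    omega)
  linarith

lemma sum_ker (M : ℕ) (hM : 0 < M) (y : ℝ) :
    ∑ n ∈ Finset.Ico (0 : ℤ) M, Real.sqrt (M / max |(n : ℝ) - y| 1) ≤ 10 * M := by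
  have hMr : (0 : ℝ) < M := by exact_mod_cast hM
  have hM1 : (1 : ℝ) ≤ M := by exact_mod_cast hM
  set z : ℝ := min (max y 0) M with hz
  have hz0 : 0 ≤ z := le_min (le_max_right _ _) hMr.le
  have hz1 : z ≤ M := min_le_right _ _
  set m : ℤ := ⌊z⌋ with hm
  have hm0 : 0 ≤ m := Int.floor_nonneg.mpr hz0
  have hm1 : m ≤ M := by
    have : (m : ℝ) ≤ ((M : ℤ) : ℝ) := (Int.floor_le z).trans (by simpa using hz1)
    exact_mod_cast this
  have hmz : (m : ℝ) ≤ z := Int.floor_le z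
  have hmz' : z < m + 1 := Int.lt_floor_add_one z
  have hpt : ∀ n ∈ Finset.Ico (0 : ℤ) M, Real.sqrt (M / max |(n : ℝ) - y| 1) ≤
      Real.sqrt (3 * M) * (1 / Real.sqrt (((n - m).natAbs : ℝ) + 1)) := by
    intro n hn
    rw [Finset.mem_Ico] at hn
    have hn0 : (0 : ℝ) ≤ n := by exact_mod_cast hn.1
    have hn1 : (n : ℝ) ≤ M := by
      have : (n : ℝ) ≤ ((M : ℤ) : ℝ) := by exact_mod_cast hn.2.le
      simpa using this
    have hzy : |(n : ℝ) - z| ≤ |(n : ℝ) - y| := by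
      rcases le_total y 0 with hy | hy
      · have : z = 0 := by rw [hz, max_eq_right hy, min_eq_left hMr.le]
        rw [this, abs_of_nonneg (by linarith), abs_of_nonneg (by linarith)]
        linarith
      · rcases le_total y M with hy' | hy'
        · have : z = y := by rw [hz, max_eq_left hy, min_eq_left hy']
          rw [this]
        · have : z = M := by rw [hz, max_eq_left hy, min_eq_right hy']
          rw [this, abs_of_nonpos (by linarith), abs_of_nonpos (by linarith)]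
          linarith
    have hk : (((n - m).natAbs : ℕ) : ℝ) = |(n : ℝ) - m| := by
      rw [Nat.cast_natAbs]
      push_cast
      rfl
    have hk2 : |(n : ℝ) - m| ≤ |(n : ℝ) - z| + 1 := by
      have h1 : |(n : ℝ) - m| ≤ |(n : ℝ) - z| + |z - m| := by
        have := abs_add_le ((n : ℝ) - z) (z - m)
        have h2 : (n : ℝ) - z + (z - m) = n - m := by ring
        rwa [h2] at this
      have h2 : |z - m| ≤ 1 := by
        rw [abs_of_nonneg (by linarith)]
        linarith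
      linarith
    have hmax1 : 1 ≤ max |(n : ℝ) - y| 1 := le_max_right _ _
    have hmax2 : |(n : ℝ) - y| ≤ max |(n : ℝ) - y| 1 := le_max_left _ _
    have hmain : (((n - m).natAbs : ℕ) : ℝ) + 1 ≤ 3 * max |(n : ℝ) - y| 1 := by
      rw [hk]
      linarith
    have hkp : (0 : ℝ) < (((n - m).natAbs : ℕ) : ℝ) + 1 := by positivity
    rw [mul_one_div, ← Real.sqrt_div (by positivity)]
    apply Real.sqrt_le_sqrt
    rw [div_le_div_iff₀ (by linarith) hkp]
    nlinarith [mul_le_mul_of_nonneg_left hmain hMr.le]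
  refine (Finset.sum_le_sum hpt).trans ?_
  rw [← Finset.mul_sum]
  have h2 := two_sum M m hm0 hm1 (fun k => 1 / Real.sqrt ((k : ℝ) + 1)) (fun k => by positivity)
  have h3 := sum_sqrt (M + 1)
  have h4 : Real.sqrt ((M + 1 : ℕ) : ℝ) ≤ Real.sqrt (2 * M) := by
    apply Real.sqrt_le_sqrt
    push_cast
    linarith
  have h5 : ∑ n ∈ Finset.Ico (0 : ℤ) M, 1 / Real.sqrt (((n - m).natAbs : ℝ) + 1) ≤
      4 * Real.sqrt (2 * M) := by
    have h6 : ∑ n ∈ Finset.Ico (0 : ℤ) M, 1 / Real.sqrt (((n - m).natAbs : ℝ) + 1) ≤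
        2 * ∑ k ∈ Finset.range (M + 1), 1 / Real.sqrt ((k : ℝ) + 1) := h2
    linarith
  have h7 : Real.sqrt (3 * M) * (4 * Real.sqrt (2 * M)) = 4 * (Real.sqrt 6 * M) := by
    have : Real.sqrt (3 * M) * Real.sqrt (2 * M) = Real.sqrt 6 * M := by
      rw [← Real.sqrt_mul (by positivity)]
      have h8 : (3 : ℝ) * M * (2 * M) = 6 * (M * M) := by ring
      rw [h8, Real.sqrt_mul (by norm_num), Real.sqrt_mul_self hMr.le]
    calc Real.sqrt (3 * M) * (4 * Real.sqrt (2 * M))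
        = 4 * (Real.sqrt (3 * M) * Real.sqrt (2 * M)) := by ring
      _ = _ := by rw [this]
  have h9 : Real.sqrt 6 ≤ 2.5 := by
    rw [Real.sqrt_le_left (by norm_num)]
    norm_num
  calc Real.sqrt (3 * M) * ∑ n ∈ Finset.Ico (0 : ℤ) M, 1 / Real.sqrt (((n - m).natAbs : ℝ) + 1)
      ≤ Real.sqrt (3 * M) * (4 * Real.sqrt (2 * M)) :=
        mul_le_mul_of_nonneg_left h5 (Real.sqrt_nonneg _)
    _ = 4 * (Real.sqrt 6 * M) := h7
    _ ≤ 4 * (2.5 * M) := by
        have := mul_le_mul_of_nonneg_right h9 hMr.le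
        linarith
    _ = 10 * M := by ring

open Classical in
/-- the kernel -/
noncomputable def ker (M : ℕ) (y : ℝ) (n : ℤ) : ℝ :=
  if 0 ≤ n ∧ n < M then Real.sqrt (M / max |(n : ℝ) - y| 1) / (10 * M) else 0

lemma ker_nonneg (M : ℕ) (y : ℝ) (n : ℤ) : 0 ≤ ker M y n := by
  unfold ker
  split_ifs
  · positivity
  · exact le_rfl

lemma ker_sum (M : ℕ) (hM : 0 < M) (y : ℝ) (F : Finset ℤ) : ∑ n ∈ F, ker M y n ≤ 1 := by
  classical
  have hMr : (0 : ℝ) < M := by exact_mod_cast hM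
  have h1 : ∑ n ∈ F, ker M y n ≤ ∑ n ∈ Finset.Ico (0 : ℤ) M, ker M y n := by
    have h2 : ∑ n ∈ F, ker M y n = ∑ n ∈ F.filter (fun n => 0 ≤ n ∧ n < (M : ℤ)), ker M y n := by
      rw [Finset.sum_filter]
      refine Finset.sum_congr rfl fun n _ => ?_
      unfold ker
      split_ifs <;> rfl
    rw [h2]
    refine Finset.sum_le_sum_of_subset_of_nonneg ?_ fun n _ _ => ker_nonneg M y n
    intro n hn
    rw [Finset.mem_filter] at hn
    exact Finset.mem_Ico.mpr hn.2
  refine h1.trans ?_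
  have h3 : ∑ n ∈ Finset.Ico (0 : ℤ) M, ker M y n =
      (∑ n ∈ Finset.Ico (0 : ℤ) M, Real.sqrt (M / max |(n : ℝ) - y| 1)) / (10 * M) := by
    rw [Finset.sum_div]
    refine Finset.sum_congr rfl fun n hn => ?_
    unfold ker
    rw [if_pos (Finset.mem_Ico.mp hn)]
  rw [h3, div_le_one (by positivity)]
  exact sum_ker M hM y

theorem en : Pool.Agent.H24.KTH.ENStmt := by
  classical
  refine ⟨2 * Real.log 10, ?_⟩
  intro M Ω _ β q W T x e hM hq h1 hT hdet hCH
  have hMr : (0 : ℝ) < M := by exact_mod_cast hM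
  set xw : β → ℝ := fun w => if h : ∃ ω, 0 < q ω ∧ W ω = w then x h.choose else 0 with hxw
  have hx : ∀ ω, 0 < q ω → xw (W ω) = x ω := by
    intro ω hω
    have hex : ∃ ω', 0 < q ω' ∧ W ω' = W ω := ⟨ω, hω, rfl⟩
    simp only [hxw]
    rw [dif_pos hex]
    exact hdet _ _ hex.choose_spec.1 hω hex.choose_spec.2
  have key := CH_le_cross hq h1 T W (fun w n => ker M (xw w) n) (by
      intro ω hω
      unfold ker
      rw [if_pos (hT ω hω)]
      have : 0 < max |(T ω : ℝ) - xw (W ω)| 1 := lt_of_lt_of_le one_pos (le_max_right _ _)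
      positivity)
    (fun w n => ker_nonneg M _ n) (fun ω _ F => ker_sum M hM _ F)
  have h2 : Ex q (fun ω => -Real.log (ker M (xw (W ω)) (T ω))) ≤
      Ex q (fun ω => Real.log 10 + Real.log M -
        (1 / 2) * Real.log (M / max |(T ω : ℝ) - x ω| 1)) := by
    refine Ex_mono hq fun ω hω => ?_
    have hmax : 0 < max |(T ω : ℝ) - x ω| 1 := lt_of_lt_of_le one_pos (le_max_right _ _)
    have hd : 0 < (M : ℝ) / max |(T ω : ℝ) - x ω| 1 := by positivity
    unfold ker
    rw [if_pos (hT ω hω), hx ω hω, Real.log_div (Real.sqrt_pos.mpr hd).ne' (by positivity),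
      Real.log_sqrt hd.le, Real.log_mul (by norm_num) hMr.ne']
    linarith
  have h3 : Ex q (fun ω => Real.log 10 + Real.log M -
        (1 / 2) * Real.log (M / max |(T ω : ℝ) - x ω| 1)) =
      Real.log 10 + Real.log M -
        (1 / 2) * Ex q (fun ω => Real.log (M / max |(T ω : ℝ) - x ω| 1)) := by
    rw [Ex_sub q (fun _ => Real.log 10 + Real.log M), Ex_const h1, Ex_smul]
  linarith

end Pool.Agent.H37.KTH
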